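import Pool.Agent.Y316.LX.Proc

set_option autoImplicit false
set_option linter.unusedSectionVars false

open MeasureTheory Filter Topology ProbabilityTheory

namespace Pool.Agent.Y316.LX

open Pool.Agent.W747.LE (V2 GL2 nrm shift iter IsCocycle HasExponents distC distP nbhd)

variable {X : Type} [MeasurableSpace X]

open Classical in
/-- The cocycle: the exchange of the axes if `x_0 = x_1 ∉ E`, the diagonal matrix otherwise. -/
noncomputable def A (E : Set X) (a b : ℝ) (x : ℤ → X) : GL2 :=
  if x 0 = x 1 ∧ x 0 ∉ E then G true ((a + b) / 2) ((a + b) / 2) else G false a b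

lemma shift_iter (n : ℕ) (x : ℤ → X) (i : ℤ) : shift^[n] x i = x (i + n) := by
  induction n generalizing x with
  | zero => simp
  | succ n ih =>
    rw [Function.iterate_succ_apply, ih]
    show x (i + n + 1) = _
    congr 1; push_cast; ring

lemma A_shift (E : Set X) (a b : ℝ) (n : ℕ) (x : ℤ → X) : A E a b (shift^[n] x) =
    (open Classical in if x n = x (n + 1) ∧ x n ∉ E then G true ((a + b) / 2) ((a + b) / 2)
      else G false a b) := by
  unfold A
  rw [shift_iter, shift_iter, zero_add, add_comm (1 : ℤ)]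

section meas

variable [MeasurableEq X]

lemma measurable_A {E : Set X} (hE : MeasurableSet E) (a b : ℝ) :
    Measurable fun x => (A E a b x : V2 →L[ℂ] V2) := by
  classical
  have h : (fun x => (A E a b x : V2 →L[ℂ] V2)) =
      fun x : ℤ → X => if x 0 = x 1 ∧ x 0 ∉ E then
        (G true ((a + b) / 2) ((a + b) / 2) : V2 →L[ℂ] V2) else (G false a b : V2 →L[ℂ] V2) := by
    funext x; unfold A; split_ifs <;> rfl
  rw [h]
  refine Measurable.ite ?_ measurable_const measurable_const
  have h1 : MeasurableSet {x : ℤ → X | x 0 = x 1} :=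
    measurableSet_eq_fun (measurable_pi_apply 0) (measurable_pi_apply 1)
  have h3 : Measurable (fun x : ℤ → X => x 0) := measurable_pi_apply 0
  have h2 : MeasurableSet {x : ℤ → X | x 0 ∉ E} := h3 hE.compl
  exact h1.inter h2

lemma isCocycle_A {N : ℕ} (hN : 1 ≤ N) {E : Set X} (hE : MeasurableSet E) (a b : ℝ) :
    IsCocycle N (A E a b) where
  measurable := measurable_A hE a b
  range x y h := by
    unfold A
    rw [h 0 (by simp), h 1 (by simpa using hN)]
  bounded := by
    refine ⟨|a| + |b|, fun x => ?_⟩
    have h1 := abs_nonneg a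
    have h2 := abs_nonneg b
    have h3 : |max a b| ≤ |a| + |b| := by
      rcases max_cases a b with h | h <;> rw [h.1] <;> linarith
    have h4 : |-min a b| ≤ |a| + |b| := by
      rw [abs_neg]
      rcases min_cases a b with h | h <;> rw [h.1] <;> linarith
    have h5 : |(a + b) / 2| ≤ |a| + |b| := by
      rw [abs_div, abs_two]
      have := abs_add_le a b
      linarith
    unfold A
    split_ifs
    · rw [nrm_G, nrm_G_symm, Real.log_exp, Real.log_exp, max_self, min_self, abs_neg]
      exact ⟨h5, h5⟩
    · rw [nrm_G, nrm_G_symm, Real.log_exp, Real.log_exp]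
      exact ⟨h3, h4⟩

end meas

/-- State of the product. -/
noncomputable def stt (E : Set X) : ℕ → (ℤ → X) → Bool × ℤ
  | 0, _ => (false, 0)
  | n + 1, x => open Classical in
    if x n = x (n + 1) ∧ x n ∉ E then (!(stt E n x).1, (stt E n x).2)
    else ((stt E n x).1, (stt E n x).2 + bif (stt E n x).1 then -1 else 1)

/-- number of steps that are exchanges or not: the two exponents of the state -/
lemma iter_eq (E : Set X) (a b : ℝ) (n : ℕ) (x : ℤ → X) : iter (A E a b) n x =
    G (stt E n x).1 (n * ((a + b) / 2) + (stt E n x).2 * ((a - b) / 2))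
      (n * ((a + b) / 2) - (stt E n x).2 * ((a - b) / 2)) := by
  induction n with
  | zero =>
    show ContinuousLinearEquiv.refl ℂ V2 = G false _ _
    ext v i
    fin_cases i <;> simp [G_false, stt, ex]
  | succ n ih =>
    rw [iter, ih, A_shift, stt]
    split_ifs with h
    · rw [G_R]
      congr 1 <;> push_cast <;> ring
    · rw [G_D]
      cases (stt E n x).1
      · simp only [cond_false]
        congr 1 <;> push_cast <;> ring
      · simp only [cond_true]
        congr 1 <;> push_cast <;> ring

lemma log_nrm (E : Set X) {a b : ℝ} (hab : b ≤ a) (n : ℕ) (x : ℤ → X) :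
    Real.log (nrm (iter (A E a b) n x)) =
      n * ((a + b) / 2) + |((stt E n x).2 : ℝ)| * ((a - b) / 2) := by
  rw [iter_eq, nrm_G, Real.log_exp]
  have h : 0 ≤ (a - b) / 2 := by linarith
  rcases le_total 0 ((stt E n x).2 : ℝ) with h1 | h1
  · rw [abs_of_nonneg h1, max_eq_left]
    have := mul_nonneg h1 h
    linarith
  · rw [abs_of_nonpos h1, max_eq_right]
    · ring
    · have := mul_nonpos_of_nonpos_of_nonneg h1 h
      linarith

lemma log_nrm_symm (E : Set X) {a b : ℝ} (hab : b ≤ a) (n : ℕ) (x : ℤ → X) :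
    Real.log (nrm (iter (A E a b) n x).symm)⁻¹ =
      n * ((a + b) / 2) - |((stt E n x).2 : ℝ)| * ((a - b) / 2) := by
  rw [iter_eq, nrm_G_symm, Real.log_inv, Real.log_exp, neg_neg]
  have h : 0 ≤ (a - b) / 2 := by linarith
  rcases le_total 0 ((stt E n x).2 : ℝ) with h1 | h1
  · rw [abs_of_nonneg h1, min_eq_right]
    have := mul_nonneg h1 h
    linarith
  · rw [abs_of_nonpos h1, min_eq_left]
    · ring
    · have := mul_nonpos_of_nonpos_of_nonneg h1 h
      linarith

/-- Without coincidences the product is a power of the diagonal matrix. -/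
lemma stt_ne {E : Set X} {x : ℤ → X} (h : ∀ n : ℕ, ¬ (x n = x (n + 1) ∧ x n ∉ E)) (n : ℕ) :
    stt E n x = (false, (n : ℤ)) := by
  induction n with
  | zero => rfl
  | succ n ih =>
    rw [stt, if_neg (h n), ih]
    simp

/-- With coincidences outside `E` at `z` only, the exponent is the signed count. -/
lemma stt_T {E : Set X} {x : ℤ → X} {z : X} (hzE : z ∉ E)
    (h : ∀ n : ℕ, x n = x (n + 1) → x n ∈ E ∪ {z}) (n : ℕ) :
    S z n x = (bif (stt E n x).1 then -1 else 1) ∧ T z n x = ((stt E n x).2 : ℝ) := by
  induction n with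
  | zero => simp [S, T, stt]
  | succ n ih =>
    obtain ⟨h1, h2⟩ := ih
    rw [S, T, h1, h2, stt]
    by_cases he : x n = x (n + 1) ∧ x n ∉ E
    · rw [if_pos he]
      have hz : x n = z := by
        rcases h n he.1 with h3 | h3
        · exact absurd h3 he.2
        · exact h3
      have y1 : yy z n x = 1 := by unfold yy; rw [if_pos hz]
      have y2 : yy z (n + 1) x = 1 := by
        unfold yy
        rw [if_pos]
        push_cast
        rw [← he.1, hz]
      rw [y1, y2]
      cases (stt E n x).1 <;> norm_num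
    · rw [if_neg he]
      have y12 : yy z n x * yy z (n + 1) x = 0 := by
        by_cases hz : x n = z
        · have : yy z (n + 1) x = 0 := by
            unfold yy
            rw [if_neg]
            push_cast
            intro h3
            exact he ⟨hz.trans h3.symm, by rw [hz]; exact hzE⟩
          rw [this, mul_zero]
        · have : yy z n x = 0 := by unfold yy; rw [if_neg hz]
          rw [this, zero_mul]
      rw [mul_assoc 2, y12]
      cases (stt E n x).1 <;> norm_num

variable [MeasurableEq X] [MeasurableSingletonClass X]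

/-- The coincidences of two independent samples. -/
lemma ae_coinc (q : Measure X) [IsProbabilityMeasure q] (B : Set X) (hB : MeasurableSet B)
    (hq : ∀ a, a ∉ B → q {a} = 0) :
    ∀ᵐ x ∂(Measure.infinitePi fun _ : ℤ => q), ∀ n : ℕ, x n = x (n + 1) → x n ∈ B := by
  rw [ae_all_iff]
  intro n
  have h1 := Measure.infinitePi_map_eval_prod (P := fun _ : ℤ => q) (i := (n : ℤ)) (j := (n : ℤ) + 1)
    (by linarith)
  have hms : MeasurableSet {w : X × X | w.1 = w.2 ∧ w.1 ∉ B} :=
    (measurableSet_eq_fun measurable_fst measurable_snd).inter (measurable_fst hB.compl)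
  have h2 : (q.prod q) {w : X × X | w.1 = w.2 ∧ w.1 ∉ B} = 0 := by
    rw [Measure.measure_prod_null hms]
    refine Eventually.of_forall fun a => ?_
    by_cases ha : a ∈ B
    · have : Prod.mk a ⁻¹' {w : X × X | w.1 = w.2 ∧ w.1 ∉ B} = ∅ := by
        ext b; simp [ha]
      show q (Prod.mk a ⁻¹' {w : X × X | w.1 = w.2 ∧ w.1 ∉ B}) = 0
      rw [this]; simp
    · refine measure_mono_null ?_ (hq a ha)
      intro b hb
      exact hb.1.symm
  rw [← h1, Measure.map_apply (by fun_prop) hms] at h2
  have h3 : ∀ᵐ x ∂(Measure.infinitePi fun _ : ℤ => q),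
      x ∉ (fun x : ℤ → X => (x n, x (n + 1))) ⁻¹' {w : X × X | w.1 = w.2 ∧ w.1 ∉ B} :=
    measure_eq_zero_iff_ae_notMem.mp h2
  filter_upwards [h3] with x hx he
  by_contra hcon
  exact hx ⟨he, hcon⟩

/-- the set of the atoms -/
def At (p : Measure X) : Set X := {x | p {x} ≠ 0}

omit [MeasurableEq X] in
lemma countable_At (p : Measure X) [IsProbabilityMeasure p] : (At p).Countable := by
  have h := Measure.countable_meas_pos_of_disjoint_iUnion (μ := p) (As := fun x : X => ({x} : Set X))
    (fun x => measurableSet_singleton x) (by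
      intro x y hxy
      simpa using hxy)
  refine h.mono fun x hx => ?_
  exact pos_iff_ne_zero.2 hx

lemma meas_At (p : Measure X) [IsProbabilityMeasure p] : MeasurableSet (At p) :=
  (countable_At p).measurableSet

lemma exponents_p (p : ProbabilityMeasure X) {a b : ℝ} (hab : b ≤ a) :
    HasExponents (A (At (p : Measure X)) a b) p a b := by
  unfold HasExponents
  filter_upwards [ae_coinc (p : Measure X) (At (p : Measure X)) (meas_At _)
    (fun c hc => by simpa [At] using hc)] with x hx
  have h1 := stt_ne (E := At (p : Measure X)) (x := x) (fun n hn => hn.2 (hx n hn.1))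
  constructor
  · refine tendsto_const_nhds.congr' ?_
    filter_upwards [eventually_ge_atTop 1] with n hn
    have hn' : (n : ℝ) ≠ 0 := by positivity
    rw [log_nrm _ hab, h1 n]
    simp only [Int.cast_natCast, Nat.abs_cast]
    field_simp
    ring
  · refine tendsto_const_nhds.congr' ?_
    filter_upwards [eventually_ge_atTop 1] with n hn
    have hn' : (n : ℝ) ≠ 0 := by positivity
    rw [log_nrm_symm _ hab, h1 n]
    simp only [Int.cast_natCast, Nat.abs_cast]
    field_simp
    ring

/-- The measure `(1 - g) p + g δ_z`. -/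
noncomputable def qm (p : ProbabilityMeasure X) (g : ℝ) (z : X) : Measure X :=
  ENNReal.ofReal (1 - g) • (p : Measure X) + ENNReal.ofReal g • Measure.dirac z

omit [MeasurableEq X] [MeasurableSingletonClass X] in
lemma qm_prob (p : ProbabilityMeasure X) {g : ℝ} (h0 : 0 ≤ g) (h1 : g ≤ 1) (z : X) :
    IsProbabilityMeasure (qm p g z) := by
  constructor
  unfold qm
  rw [Measure.add_apply, Measure.smul_apply, Measure.smul_apply, measure_univ, measure_univ,
    smul_eq_mul, smul_eq_mul, mul_one, mul_one, ← ENNReal.ofReal_add (by linarith) h0]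
  simp

/-- The same as a probability measure. -/
noncomputable def qq (p : ProbabilityMeasure X) (g : ℝ) (z : X) (h0 : 0 ≤ g) (h1 : g ≤ 1) :
    ProbabilityMeasure X :=
  ⟨qm p g z, qm_prob p h0 h1 z⟩

lemma qm_atom (p : ProbabilityMeasure X) {g : ℝ} (h0 : 0 ≤ g) {z : X}
    (hz : z ∉ At (p : Measure X)) : (qm p g z).real {z} = g := by
  have hz' : (p : Measure X) {z} = 0 := by simpa [At] using hz
  unfold qm Measure.real
  rw [Measure.add_apply, Measure.smul_apply, Measure.smul_apply, hz']
  simp [h0]

lemma qm_noatom (p : ProbabilityMeasure X) (g : ℝ) (z : X) {c : X} (hc : c ∉ At (p : Measure X) ∪ {z}) :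
    qm p g z {c} = 0 := by
  have hc' : (p : Measure X) {c} = 0 := by
    by_contra h
    exact hc (Or.inl h)
  have hcz : c ≠ z := fun h => hc (Or.inr h)
  unfold qm
  rw [Measure.add_apply, Measure.smul_apply, Measure.smul_apply, hc',
    Measure.dirac_apply' _ (measurableSet_singleton c)]
  simp [Ne.symm hcz]

lemma exponents_q (p : ProbabilityMeasure X) {a b : ℝ} (hab : b ≤ a) {g : ℝ} (hg : g ≠ 0)
    (h0 : 0 ≤ g) (h1 : g ≤ 1) {z : X} (hz : z ∉ At (p : Measure X)) :
    HasExponents (A (At (p : Measure X)) a b) (qq p g z h0 h1) ((a + b) / 2) ((a + b) / 2) := by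
  unfold HasExponents
  have := qm_prob p h0 h1 z
  show ∀ᵐ x ∂(Measure.infinitePi fun _ : ℤ => qm p g z), _
  filter_upwards [ae_coinc (qm p g z) (At (p : Measure X) ∪ {z})
    ((meas_At _).union (measurableSet_singleton z))
    (fun c hc => qm_noatom p g z hc), ae_T (qm p g z) hg (qm_atom p h0 hz) h0 h1] with x hx hT
  have h2 : ∀ n, T z n x = ((stt (At (p : Measure X)) n x).2 : ℝ) :=
    fun n => (stt_T (x := x) (z := z) hz hx n).2
  have h3 : Tendsto (fun n : ℕ => |((stt (At (p : Measure X)) n x).2 : ℝ)| / n * ((a - b) / 2)) atTop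
      (𝓝 0) := by
    have := hT.mul_const ((a - b) / 2)
    rw [zero_mul] at this
    refine this.congr fun n => ?_
    rw [h2 n]
  constructor
  · have h4 := h3.const_add ((a + b) / 2)
    rw [add_zero] at h4
    refine h4.congr' ?_
    filter_upwards [eventually_ge_atTop 1] with n hn
    have hn' : (n : ℝ) ≠ 0 := by positivity
    rw [log_nrm _ hab]
    field_simp
  · have h4 := h3.const_sub ((a + b) / 2)
    rw [sub_zero] at h4
    refine h4.congr' ?_
    filter_upwards [eventually_ge_atTop 1] with n hn
    have hn' : (n : ℝ) ≠ 0 := by positivity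
    rw [log_nrm_symm _ hab]
    field_simp

lemma distP_q (p : ProbabilityMeasure X) {g : ℝ} (h0 : 0 ≤ g) (h1 : g ≤ 1) (z : X) :
    distP p (qq p g z h0 h1) ≤ 2 * g := by
  unfold distP
  refine Real.sSup_le ?_ (by linarith)
  rintro r ⟨φ, hφ, hb, rfl⟩
  have hint : ∀ μ : Measure X, IsProbabilityMeasure μ → Integrable φ μ := fun μ _ =>
    Integrable.of_bound hφ.aestronglyMeasurable 1 (Eventually.of_forall fun x => hb x)
  have i1 : Integrable φ (p : Measure X) := hint _ inferInstance
  have i2 : Integrable φ (Measure.dirac z) := hint _ inferInstance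
  have e : ∫ x, φ x ∂((qq p g z h0 h1 : ProbabilityMeasure X) : Measure X) =
      (1 - g) * ∫ x, φ x ∂(p : Measure X) + g * φ z := by
    show ∫ x, φ x ∂(qm p g z) = _
    unfold qm
    rw [integral_add_measure (i1.smul_measure ENNReal.ofReal_ne_top)
      (i2.smul_measure ENNReal.ofReal_ne_top), integral_smul_measure, integral_smul_measure,
      integral_dirac, ENNReal.toReal_ofReal (by linarith), ENNReal.toReal_ofReal h0]
    rfl
  rw [e]
  have hb1 : |∫ x, φ x ∂(p : Measure X)| ≤ 1 := by
    have := norm_integral_le_of_norm_le_const (μ := (p : Measure X)) (f := φ) (C := 1)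
      (Eventually.of_forall fun x => hb x)
    simpa using this
  have e2 : ∫ x, φ x ∂(p : Measure X) - ((1 - g) * ∫ x, φ x ∂(p : Measure X) + g * φ z) =
      g * (∫ x, φ x ∂(p : Measure X) - φ z) := by ring
  rw [e2, abs_mul, abs_of_nonneg h0]
  have := abs_sub (∫ x, φ x ∂(p : Measure X)) (φ z)
  have := hb z
  nlinarith

/-- The main statement. -/
theorem main (p : ProbabilityMeasure X)
    (hp : ∀ C : Set X, C.Countable → (p : Measure X) C ≠ 1) (N : ℕ) (hN : 1 ≤ N) (a b : ℝ)
    (hab : b ≤ a) :
    ∃ A : (ℤ → X) → GL2, IsCocycle N A ∧ HasExponents A p a b ∧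
      ∀ γ : ℝ, 0 < γ → ∀ Z : Set X, MeasurableSet Z → (p : Measure X) Z = 1 →
        ∃ q : ProbabilityMeasure X, (A, q) ∈ nbhd N A p γ Z ∧
          HasExponents A q ((a + b) / 2) ((a + b) / 2) := by
  refine ⟨A (At (p : Measure X)) a b, isCocycle_A hN (meas_At _) a b, exponents_p p hab,
    fun γ hγ Z hZ hpZ => ?_⟩
  obtain ⟨z, hz, hzA⟩ : ∃ z ∈ Z, z ∉ At (p : Measure X) := by
    by_contra hcon
    push Not at hcon
    refine hp (At (p : Measure X)) (countable_At _) (le_antisymm prob_le_one ?_)
    rw [← hpZ]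
    exact measure_mono fun x hx => hcon x hx
  have hg0 : 0 < min (γ / 4) (1 / 2) := by positivity
  have hg1 : min (γ / 4) (1 / 2) ≤ 1 := (min_le_right _ _).trans (by norm_num)
  refine ⟨qq p (min (γ / 4) (1 / 2)) z hg0.le hg1, ⟨isCocycle_A hN (meas_At _) a b, ?_, ?_, ?_⟩,
    exponents_q p hab hg0.ne' hg0.le hg1 hzA⟩
  · unfold distC
    simp only [sub_self, norm_zero]
    rcases isEmpty_or_nonempty (ℤ → X) with h | h
    · rw [Real.iSup_of_isEmpty]; exact hγ
    · rw [ciSup_const]; exact hγ
  · show qm p (min (γ / 4) (1 / 2)) z Z = 1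
    unfold qm
    rw [Measure.add_apply, Measure.smul_apply, Measure.smul_apply, hpZ,
      Measure.dirac_apply' _ hZ, Set.indicator_of_mem hz, Pi.one_apply, smul_eq_mul, smul_eq_mul,
      mul_one, mul_one, ← ENNReal.ofReal_add (by linarith) hg0.le]
    simp
  · refine (distP_q p hg0.le hg1 z).trans_lt ?_
    have := min_le_left (γ / 4) (1 / 2)
    linarith

end Pool.Agent.Y316.LX
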