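import Pool.Agent.W747.LE.Defs

set_option autoImplicit false

open MeasureTheory Filter Topology

namespace Pool.Agent.Y316.LX

open Pool.Agent.W747.LE

/-- the positive scalar `e^u` -/
noncomputable def ex (u : ℝ) : ℂ := ((Real.exp u : ℝ) : ℂ)

lemma ex_add (u v : ℝ) : ex (u + v) = ex u * ex v := by
  unfold ex; rw [Real.exp_add]; push_cast; ring

lemma ex_ne (u : ℝ) : ex u ≠ 0 := by
  unfold ex; exact_mod_cast (Real.exp_pos u).ne'

lemma ex_neg_mul (u : ℝ) : ex (-u) * ex u = 1 := by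
  rw [← ex_add]; simp [ex]

lemma ex_mul_neg (u : ℝ) : ex u * ex (-u) = 1 := by
  rw [← ex_add]; simp [ex]

lemma norm_ex (u : ℝ) : ‖ex u‖ = Real.exp u := by
  unfold ex; rw [Complex.norm_real, Real.norm_of_nonneg (Real.exp_pos u).le]

/-- Diagonal or antidiagonal matrix with entries `e^u` and `e^v`. -/
noncomputable def Glin (k : Bool) (u v : ℝ) : V2 ≃ₗ[ℂ] V2 where
  toFun w := bif k then WithLp.toLp 2 ![ex v * w 1, ex u * w 0]
    else WithLp.toLp 2 ![ex u * w 0, ex v * w 1]
  map_add' v w := by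
    cases k <;> ext i <;> fin_cases i <;> simp <;> ring
  map_smul' c v := by
    cases k <;> ext i <;> fin_cases i <;> simp <;> ring
  invFun w := bif k then WithLp.toLp 2 ![ex (-u) * w 1, ex (-v) * w 0]
    else WithLp.toLp 2 ![ex (-u) * w 0, ex (-v) * w 1]
  left_inv w := by
    cases k <;> ext i <;> fin_cases i <;> simp [← mul_assoc, ex_neg_mul]
  right_inv w := by
    cases k <;> ext i <;> fin_cases i <;> simp [← mul_assoc, ex_mul_neg]

/-- The same as an element of `GL(2,ℂ)`. -/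
noncomputable def G (k : Bool) (u v : ℝ) : GL2 := (Glin k u v).toContinuousLinearEquiv

lemma G_false (u v : ℝ) (w : V2) :
    G false u v w = WithLp.toLp 2 ![ex u * w 0, ex v * w 1] := rfl

lemma G_true (u v : ℝ) (w : V2) :
    G true u v w = WithLp.toLp 2 ![ex v * w 1, ex u * w 0] := rfl

lemma G_symm (k : Bool) (u v : ℝ) :
    (G k u v).symm = bif k then G true (-v) (-u) else G false (-u) (-v) := by
  cases k
  · ext w i
    rfl
  · ext w i
    rfl

lemma G_D (k : Bool) (u v a b : ℝ) : (G k u v).trans (G false a b) =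
    G k (u + bif k then b else a) (v + bif k then a else b) := by
  cases k <;> ext w i <;> fin_cases i <;>
    simp [G_false, G_true, ex_add] <;> ring

lemma G_R (k : Bool) (u v m : ℝ) : (G k u v).trans (G true m m) = G (!k) (u + m) (v + m) := by
  cases k <;> ext w i <;> fin_cases i <;>
    simp [G_false, G_true, ex_add] <;> ring

lemma sq_norm_mk (a b : ℂ) : ‖(WithLp.toLp 2 ![a, b] : V2)‖ ^ 2 = ‖a‖ ^ 2 + ‖b‖ ^ 2 := by
  rw [EuclideanSpace.norm_sq_eq, Fin.sum_univ_two]; rfl

lemma sq_norm_v (v : V2) : ‖v‖ ^ 2 = ‖v 0‖ ^ 2 + ‖v 1‖ ^ 2 := by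
  rw [EuclideanSpace.norm_sq_eq, Fin.sum_univ_two]

lemma nrm_G (k : Bool) (u v : ℝ) : nrm (G k u v) = Real.exp (max u v) := by
  have hp : (0 : ℝ) < Real.exp (max u v) := Real.exp_pos _
  apply le_antisymm
  · refine ContinuousLinearMap.opNorm_le_bound _ hp.le fun w => ?_
    have h1 : Real.exp u ≤ Real.exp (max u v) := Real.exp_le_exp.2 (le_max_left _ _)
    have h2 : Real.exp v ≤ Real.exp (max u v) := Real.exp_le_exp.2 (le_max_right _ _)
    have e1 : (Real.exp u) ^ 2 ≤ (Real.exp (max u v)) ^ 2 :=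
      pow_le_pow_left₀ (Real.exp_pos u).le h1 2
    have e2 : (Real.exp v) ^ 2 ≤ (Real.exp (max u v)) ^ 2 :=
      pow_le_pow_left₀ (Real.exp_pos v).le h2 2
    have key : ‖G k u v w‖ ^ 2 ≤ (Real.exp (max u v) * ‖w‖) ^ 2 := by
      rw [mul_pow, sq_norm_v w]
      cases k
      · rw [G_false, sq_norm_mk, norm_mul, norm_mul, norm_ex, norm_ex]
        nlinarith [sq_nonneg ‖w 0‖, sq_nonneg ‖w 1‖]
      · rw [G_true, sq_norm_mk, norm_mul, norm_mul, norm_ex, norm_ex]
        nlinarith [sq_nonneg ‖w 0‖, sq_nonneg ‖w 1‖]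
    exact le_of_sq_le_sq key (by positivity)
  · have hle : ∀ w : V2, ‖w‖ = 1 → ‖G k u v w‖ ≤ nrm (G k u v) := by
      intro w hw
      have := (G k u v : V2 →L[ℂ] V2).le_opNorm w
      rwa [hw, mul_one] at this
    rcases le_total v u with h | h
    · have hw : ‖(WithLp.toLp 2 ![1, 0] : V2)‖ = 1 := by
        have := sq_norm_mk 1 0
        simp only [norm_one, one_pow, norm_zero, ne_eq, OfNat.ofNat_ne_zero, not_false_eq_true,
          zero_pow, add_zero] at this
        nlinarith [norm_nonneg (WithLp.toLp 2 ![1, 0] : V2)]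
      refine le_trans (le_of_eq ?_) (hle _ hw)
      have : ‖G k u v (WithLp.toLp 2 ![1, 0] : V2)‖ ^ 2 = (Real.exp (max u v)) ^ 2 := by
        rw [max_eq_left h]
        cases k
        · rw [G_false, sq_norm_mk]; simp [norm_ex]
        · rw [G_true, sq_norm_mk]; simp [norm_ex]
      exact ((pow_left_inj₀ (norm_nonneg _) hp.le two_ne_zero).mp this).symm
    · have hw : ‖(WithLp.toLp 2 ![0, 1] : V2)‖ = 1 := by
        have := sq_norm_mk 0 1
        simp only [norm_one, one_pow, norm_zero, ne_eq, OfNat.ofNat_ne_zero, not_false_eq_true,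
          zero_pow, zero_add] at this
        nlinarith [norm_nonneg (WithLp.toLp 2 ![0, 1] : V2)]
      refine le_trans (le_of_eq ?_) (hle _ hw)
      have : ‖G k u v (WithLp.toLp 2 ![0, 1] : V2)‖ ^ 2 = (Real.exp (max u v)) ^ 2 := by
        rw [max_eq_right h]
        cases k
        · rw [G_false, sq_norm_mk]; simp [norm_ex]
        · rw [G_true, sq_norm_mk]; simp [norm_ex]
      exact ((pow_left_inj₀ (norm_nonneg _) hp.le two_ne_zero).mp this).symm

lemma nrm_G_symm (k : Bool) (u v : ℝ) : nrm (G k u v).symm = Real.exp (-min u v) := by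
  rw [G_symm]
  cases k
  · simp [nrm_G, max_neg_neg]
  · simp [nrm_G, max_neg_neg, min_comm]

end Pool.Agent.Y316.LX
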