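import Pool.Agent.Y316.LX.Mat

set_option autoImplicit false
set_option linter.unusedSectionVars false

open MeasureTheory Filter Topology ProbabilityTheory

namespace Pool.Agent.Y316.LX

variable {X : Type} [MeasurableSpace X]

open Classical in
/-- The indicator of the value `z` at time `n`. -/
noncomputable def yy (z : X) (n : ℕ) (x : ℤ → X) : ℝ := if x n = z then 1 else 0

lemma yy_cases (z : X) (n : ℕ) (x : ℤ → X) : yy z n x = 0 ∨ yy z n x = 1 := by
  unfold yy; split_ifs <;> simp

/-- The sign process. -/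
noncomputable def S (z : X) : ℕ → (ℤ → X) → ℝ
  | 0, _ => 1
  | n + 1, x => S z n x * (1 - 2 * yy z n x * yy z (n + 1) x)

/-- The signed count. -/
noncomputable def T (z : X) : ℕ → (ℤ → X) → ℝ
  | 0, _ => 0
  | n + 1, x => T z n x + S z n x * (1 - yy z n x * yy z (n + 1) x)

lemma S_sq (z : X) (n : ℕ) (x : ℤ → X) : S z n x ^ 2 = 1 := by
  induction n with
  | zero => simp [S]
  | succ n ih =>
    rw [S, mul_pow, ih, one_mul]
    rcases yy_cases z n x with h | h <;> rcases yy_cases z (n + 1) x with h' | h' <;>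
      rw [h, h'] <;> norm_num

lemma abs_S (z : X) (n : ℕ) (x : ℤ → X) : |S z n x| = 1 := by
  have h := S_sq z n x
  rw [← sq_abs] at h
  have h0 := abs_nonneg (S z n x)
  nlinarith

lemma T_step (z : X) (n : ℕ) (x : ℤ → X) : |T z (n + 1) x - T z n x| ≤ 1 := by
  rw [T, add_sub_cancel_left, abs_mul, abs_S, one_mul]
  rcases yy_cases z n x with h | h <;> rcases yy_cases z (n + 1) x with h' | h' <;>
      rw [h, h'] <;> norm_num

lemma T_lip (z : X) (n m : ℕ) (x : ℤ → X) : |T z (n + m) x - T z n x| ≤ m := by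
  induction m with
  | zero => simp
  | succ m ih =>
    have h := T_step z (n + m) x
    have e : T z (n + (m + 1)) x - T z n x =
      (T z (n + m + 1) x - T z (n + m) x) + (T z (n + m) x - T z n x) := by
      rw [← add_assoc]; ring
    rw [e]
    refine (abs_add_le _ _).trans ?_
    push_cast
    linarith

lemma T_le (z : X) (n : ℕ) (x : ℤ → X) : |T z n x| ≤ n := by
  have := T_lip z 0 n x
  simpa [T] using this

/-- The filtration. -/
@[instance_reducible] def mm (n : ℕ) : MeasurableSpace (ℤ → X) :=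
  ⨆ i ∈ Set.Iic (n : ℤ), MeasurableSpace.comap (fun x : ℤ → X => x i) inferInstance

lemma mm_le (n : ℕ) : (mm n : MeasurableSpace (ℤ → X)) ≤ MeasurableSpace.pi := by
  refine iSup₂_le fun i _ => ?_
  exact (measurable_pi_apply i).comap_le

lemma mm_mono {m n : ℕ} (h : m ≤ n) : (mm m : MeasurableSpace (ℤ → X)) ≤ mm n := by
  refine iSup₂_le fun i hi => ?_
  have hi' : i ∈ Set.Iic (n : ℤ) := by
    simp only [Set.mem_Iic] at hi ⊢
    have : (m : ℤ) ≤ n := by exact_mod_cast h
    linarith
  exact le_iSup₂_of_le (f := fun (i : ℤ) (_ : i ∈ Set.Iic (n : ℤ)) =>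
    MeasurableSpace.comap (fun x : ℤ → X => x i) (inferInstance : MeasurableSpace X)) i hi' le_rfl

lemma meas_eval (n : ℕ) : Measurable[mm n] (fun x : ℤ → X => x n) := by
  rw [measurable_iff_comap_le]
  exact le_iSup₂_of_le (f := fun (i : ℤ) (_ : i ∈ Set.Iic (n : ℤ)) =>
    MeasurableSpace.comap (fun x : ℤ → X => x i) (inferInstance : MeasurableSpace X)) (n : ℤ)
      (by simp) le_rfl

variable [MeasurableSingletonClass X]

lemma meas_yy (z : X) (n : ℕ) : Measurable[mm n] (yy z n) := by
  classical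
  have h : Measurable (fun t : X => if t = z then (1 : ℝ) else 0) :=
    Measurable.ite (measurableSet_singleton z) measurable_const measurable_const
  have h2 : yy z n = (fun t : X => if t = z then (1 : ℝ) else 0) ∘ (fun x : ℤ → X => x n) := by
    funext x; simp [yy]
  rw [h2]
  exact h.comp (meas_eval n)

lemma meas_S (z : X) (n : ℕ) : Measurable[mm n] (S z n) := by
  induction n with
  | zero => exact measurable_const
  | succ n ih =>
    have h1 := ih.mono (mm_mono (Nat.le_succ n)) le_rfl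
    have h2 := (meas_yy z n).mono (mm_mono (Nat.le_succ n)) le_rfl
    have h3 := meas_yy z (n + 1)
    exact h1.mul (measurable_const.sub ((measurable_const.mul h2).mul h3))

lemma meas_T (z : X) (n : ℕ) : Measurable[mm n] (T z n) := by
  induction n with
  | zero => exact measurable_const
  | succ n ih =>
    have h0 := ih.mono (mm_mono (Nat.le_succ n)) le_rfl
    have h1 := (meas_S z n).mono (mm_mono (Nat.le_succ n)) le_rfl
    have h2 := (meas_yy z n).mono (mm_mono (Nat.le_succ n)) le_rfl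
    have h3 := meas_yy z (n + 1)
    exact h0.add (h1.mul (measurable_const.sub (h2.mul h3)))

/-- The constant in the solution of the Poisson equation. -/
noncomputable def h0 (g : ℝ) : ℝ := (1 + 2 * g - g ^ 2) / (2 * g ^ 2)

/-- The martingale. -/
noncomputable def W (z : X) (g : ℝ) (n : ℕ) (x : ℤ → X) : ℝ := T z n x + S z n x * (h0 g - yy z n x / g)

/-- The coefficient of the increment. -/
noncomputable def cc (g y : ℝ) : ℝ := -y - 1 / g - 2 * h0 g * y + 2 * y / g

lemma W_step {z : X} {g : ℝ} (hg : g ≠ 0) (n : ℕ) (x : ℤ → X) :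
    W z g (n + 1) x = W z g n x + S z n x * cc g (yy z n x) * (yy z (n + 1) x - g) := by
  unfold W cc
  rw [T, S]
  have hh : 2 * h0 g * g = 1 / g + 2 - g := by unfold h0; field_simp
  rcases yy_cases z n x with h | h <;> rcases yy_cases z (n + 1) x with h' | h' <;> rw [h, h']
  · field_simp; ring
  · field_simp; ring
  · have : S z n x * (2 * h0 g * g) = S z n x * (1 / g + 2 - g) := by rw [hh]
    field_simp at this ⊢
    linarith
  · have : S z n x * (2 * h0 g * g) = S z n x * (1 / g + 2 - g) := by rw [hh]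
    field_simp at this ⊢
    linarith

lemma meas_W (z : X) (g : ℝ) (n : ℕ) : Measurable[mm n] (W z g n) :=
  (meas_T z n).add ((meas_S z n).mul (measurable_const.sub ((meas_yy z n).div_const g)))

/-- The coefficient as a process. -/
noncomputable def xi (z : X) (g : ℝ) (n : ℕ) (x : ℤ → X) : ℝ := S z n x * cc g (yy z n x)

lemma meas_xi (z : X) (g : ℝ) (n : ℕ) : Measurable[mm n] (xi z g n) := by
  have h : Measurable (cc g) := by unfold cc; fun_prop
  exact (meas_S z n).mul (h.comp (meas_yy z n))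

/-- A bound for the coefficients. -/
noncomputable def CC (g : ℝ) : ℝ := |cc g 0| + |cc g 1| + |h0 g| + |1 / g|

lemma abs_xi_le (z : X) (g : ℝ) (n : ℕ) (x : ℤ → X) : |xi z g n x| ≤ CC g := by
  unfold xi CC
  rw [abs_mul, abs_S, one_mul]
  have h1 := abs_nonneg (cc g 0)
  have h2 := abs_nonneg (cc g 1)
  have h3 := abs_nonneg (h0 g)
  have h4 := abs_nonneg (1 / g)
  rcases yy_cases z n x with h | h <;> rw [h] <;> linarith

lemma abs_W_sub_le (z : X) (g : ℝ) (n : ℕ) (x : ℤ → X) : |W z g n x - T z n x| ≤ CC g := by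
  unfold W CC
  rw [add_sub_cancel_left, abs_mul, abs_S, one_mul]
  have h1 := abs_nonneg (cc g 0)
  have h2 := abs_nonneg (cc g 1)
  have h3 := abs_nonneg (h0 g)
  have h4 := abs_nonneg (1 / g)
  rcases yy_cases z n x with h | h <;> rw [h]
  · simp only [zero_div, sub_zero]; linarith
  · refine (abs_sub _ _).trans ?_; linarith

lemma abs_W_le (z : X) (g : ℝ) (n : ℕ) (x : ℤ → X) : |W z g n x| ≤ n + CC g := by
  have h1 := abs_W_sub_le z g n x
  have h2 := T_le z n x
  have : W z g n x = (W z g n x - T z n x) + T z n x := by ring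
  rw [this]
  exact (abs_add_le _ _).trans (by linarith)

section Prob

variable (q : Measure X) [IsProbabilityMeasure q]

/-- The product measure. -/
noncomputable abbrev QQ : Measure (ℤ → X) := Measure.infinitePi fun _ : ℤ => q

lemma indep_mm (n : ℕ) :
    Indep (mm n) (MeasurableSpace.comap (fun x : ℤ → X => x ((n : ℤ) + 1)) inferInstance) (QQ q) := by
  have h1 : iIndepFun (fun (i : ℤ) (x : ℤ → X) => x i) (QQ q) :=
    iIndepFun_infinitePi (P := fun _ : ℤ => q) (X := fun _ t => t) (fun _ => measurable_id)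
  have h2 := indep_iSup_of_disjoint (m := fun i : ℤ => MeasurableSpace.comap (fun x : ℤ → X => x i)
    (inferInstance : MeasurableSpace X)) (fun i => (measurable_pi_apply i).comap_le) h1
    (S := Set.Iic (n : ℤ)) (T := {(n : ℤ) + 1}) (by
      rw [Set.disjoint_singleton_right]; simp)
  simpa [mm] using h2

/-- Orthogonality of the increments. -/
lemma orth {z : X} {g : ℝ} (hq : q.real {z} = g) (n : ℕ) {F : (ℤ → X) → ℝ} (hF : Measurable[mm n] F) :
    ∫ x, F x * (yy z (n + 1) x - g) ∂(QQ q) = 0 := by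
  classical
  have hind : IndepFun F (fun x => yy z (n + 1) x - g) (QQ q) := by
    rw [IndepFun_iff_Indep]
    refine indep_of_indep_of_le_left (indep_of_indep_of_le_right (indep_mm q n) ?_) hF.comap_le
    have h : Measurable (fun t : X => (if t = z then (1 : ℝ) else 0) - g) :=
      (Measurable.ite (measurableSet_singleton z) measurable_const measurable_const).sub
        measurable_const
    have h2 : (fun x => yy z (n + 1) x - g) =
        (fun t : X => (if t = z then (1 : ℝ) else 0) - g) ∘ (fun x : ℤ → X => x ((n : ℤ) + 1)) := by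
      funext x; simp [yy]
    rw [h2, ← MeasurableSpace.comap_comp]
    exact MeasurableSpace.comap_mono h.comap_le
  have h1 := hind.integral_fun_mul_eq_mul_integral
    ((hF.mono (mm_le n) le_rfl).aestronglyMeasurable)
    ((((meas_yy z (n + 1)).mono (mm_le _) le_rfl).sub_const g).aestronglyMeasurable)
  rw [h1]
  have h3 : ∫ x, (yy z (n + 1) x - g) ∂(QQ q) = 0 := by
    have e1 : (fun x => yy z (n + 1) x - g) =
        fun x => (fun t : X => (if t = z then (1 : ℝ) else 0) - g) (x ((n : ℤ) + 1)) := by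
      funext x; simp [yy]
    have hm : Measurable (fun t : X => (if t = z then (1 : ℝ) else 0) - g) :=
      (Measurable.ite (measurableSet_singleton z) measurable_const measurable_const).sub
        measurable_const
    rw [e1]
    have e2 := measurePreserving_eval_infinitePi (fun _ : ℤ => q) ((n : ℤ) + 1)
    have e3 := integral_map (μ := QQ q) (φ := Function.eval ((n : ℤ) + 1)) (β := X)
      e2.measurable.aemeasurable (f := fun t : X => (if t = z then (1 : ℝ) else 0) - g)
      hm.aestronglyMeasurable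
    have e4 : ∫ t, ((if t = z then (1 : ℝ) else 0) - g) ∂q = 0 := by
      have e5 : (fun t : X => (if t = z then (1 : ℝ) else 0)) = Set.indicator {z} (fun _ => 1) := by
        funext t; simp [Set.indicator]
      have e6 : Integrable (fun t : X => (if t = z then (1 : ℝ) else 0)) q := by
        rw [e5]; exact (integrable_const 1).indicator (measurableSet_singleton z)
      rw [integral_sub e6 (integrable_const g), e5, integral_indicator_const _
        (measurableSet_singleton z), hq]
      simp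
    rw [e2.map_eq, e4] at e3
    exact e3.symm
  rw [h3, mul_zero]

lemma int_bdd {F : (ℤ → X) → ℝ} (hF : Measurable F) {C : ℝ} (hC : ∀ x, |F x| ≤ C) :
    Integrable F (QQ q) :=
  Integrable.of_bound hF.aestronglyMeasurable C (Eventually.of_forall fun x => hC x)

/-- Second moments. -/
lemma moment {z : X} {g : ℝ} (hg : g ≠ 0) (hq : q.real {z} = g) (hg1 : 0 ≤ g) (hg2 : g ≤ 1) (n : ℕ) :
    ∫ x, W z g n x ^ 2 ∂(QQ q) ≤ (n + 1) * CC g ^ 2 := by
  have hCC : 0 ≤ CC g := by unfold CC; positivity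
  induction n with
  | zero =>
    have h1 : ∀ x, W z g 0 x ^ 2 ≤ CC g ^ 2 := fun x => by
      have := abs_W_sub_le z g 0 x
      rw [T, sub_zero] at this
      exact sq_le_sq' (by linarith [(abs_le.mp this).1]) (abs_le.mp this).2
    have h2 : ∫ x, W z g 0 x ^ 2 ∂(QQ q) ≤ ∫ _x, CC g ^ 2 ∂(QQ q) := by
      refine integral_mono ?_ (integrable_const _) h1
      refine int_bdd q (((meas_W z g 0).mono (mm_le 0) le_rfl).pow_const 2) (C := CC g ^ 2)
        fun x => ?_
      rw [abs_of_nonneg (sq_nonneg _)]; exact h1 x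
    simpa using h2
  | succ n ih =>
    have hmW := (meas_W z g n).mono (mm_le n) le_rfl
    have hmx := (meas_xi z g n).mono (mm_le n) le_rfl
    have hmy := (meas_yy z (n + 1)).mono (mm_le (n + 1)) le_rfl
    have hy : ∀ x, |yy z (n + 1) x - g| ≤ 1 := fun x => by
      rcases yy_cases z (n + 1) x with h | h <;> rw [h, abs_le] <;> constructor <;> linarith
    have e : ∀ x, W z g (n + 1) x ^ 2 = W z g n x ^ 2 +
        (2 * W z g n x * xi z g n x) * (yy z (n + 1) x - g) +
        (xi z g n x * (yy z (n + 1) x - g)) ^ 2 := fun x => by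
      rw [W_step hg]; unfold xi; ring
    simp_rw [e]
    have i1 : Integrable (fun x => W z g n x ^ 2) (QQ q) :=
      int_bdd q (hmW.pow_const 2) (C := (n + CC g) ^ 2) fun x => by
        rw [abs_of_nonneg (sq_nonneg _)]
        exact sq_le_sq' (by linarith [(abs_le.mp (abs_W_le z g n x)).1])
          (abs_le.mp (abs_W_le z g n x)).2
    have i2 : Integrable (fun x => (2 * W z g n x * xi z g n x) * (yy z (n + 1) x - g)) (QQ q) := by
      refine int_bdd q (((measurable_const.mul hmW).mul hmx).mul (hmy.sub_const g))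
        (C := 2 * (n + CC g) * CC g * 1) fun x => ?_
      rw [abs_mul, abs_mul, abs_mul, abs_of_pos (by norm_num : (0 : ℝ) < 2)]
      refine mul_le_mul (mul_le_mul (mul_le_mul_of_nonneg_left (abs_W_le z g n x) (by norm_num))
        (abs_xi_le z g n x) (abs_nonneg _) (by positivity)) (hy x) (abs_nonneg _) (by positivity)
    have i3 : Integrable (fun x => (xi z g n x * (yy z (n + 1) x - g)) ^ 2) (QQ q) := by
      refine int_bdd q ((hmx.mul (hmy.sub_const g)).pow_const 2) (C := (CC g * 1) ^ 2) fun x => ?_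
      rw [abs_of_nonneg (sq_nonneg _), ← sq_abs, abs_mul]
      exact pow_le_pow_left₀ (by positivity) (mul_le_mul (abs_xi_le z g n x) (hy x)
        (abs_nonneg _) hCC) 2
    have i12 : Integrable (fun x => W z g n x ^ 2 +
        (2 * W z g n x * xi z g n x) * (yy z (n + 1) x - g)) (QQ q) := i1.add i2
    rw [integral_add i12 i3, integral_add i1 i2,
      orth q hq n (F := fun x => 2 * W z g n x * xi z g n x)
        ((measurable_const.mul (meas_W z g n)).mul (meas_xi z g n)), add_zero]
    have h3 : ∫ x, (xi z g n x * (yy z (n + 1) x - g)) ^ 2 ∂(QQ q) ≤ CC g ^ 2 := by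
      have : ∫ x, (xi z g n x * (yy z (n + 1) x - g)) ^ 2 ∂(QQ q) ≤ ∫ _x, CC g ^ 2 ∂(QQ q) := by
        refine integral_mono i3 (integrable_const _) fun x => ?_
        show (xi z g n x * (yy z (n + 1) x - g)) ^ 2 ≤ CC g ^ 2
        rw [← sq_abs, abs_mul]
        refine pow_le_pow_left₀ (by positivity) ?_ 2
        calc |xi z g n x| * |yy z (n + 1) x - g| ≤ CC g * 1 :=
              mul_le_mul (abs_xi_le z g n x) (hy x) (abs_nonneg _) hCC
          _ = CC g := mul_one _
      simpa using this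
    push_cast
    linarith

/-- Convergence along the squares. -/
lemma ae_squares {z : X} {g : ℝ} (hg : g ≠ 0) (hq : q.real {z} = g) (hg1 : 0 ≤ g) (hg2 : g ≤ 1) :
    ∀ᵐ x ∂(QQ q), Tendsto (fun k : ℕ => W z g (k ^ 2) x / (k : ℝ) ^ 2) atTop (𝓝 0) := by
  have hCC : 0 ≤ CC g := by unfold CC; positivity
  have hmeas : ∀ k : ℕ, Measurable fun x : ℤ → X => ENNReal.ofReal ((W z g (k ^ 2) x / (k : ℝ) ^ 2) ^ 2) :=
    fun k => ((((meas_W z g (k ^ 2)).mono (mm_le _) le_rfl).div_const _).pow_const 2).ennreal_ofReal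
  have hle : ∀ k : ℕ, ∫⁻ x, ENNReal.ofReal ((W z g (k ^ 2) x / (k : ℝ) ^ 2) ^ 2) ∂(QQ q) ≤
      ENNReal.ofReal (2 * CC g ^ 2 * (1 / (k : ℝ) ^ 2)) := by
    intro k
    have i1 : Integrable (fun x => W z g (k ^ 2) x ^ 2) (QQ q) :=
      int_bdd q (((meas_W z g (k ^ 2)).mono (mm_le _) le_rfl).pow_const 2)
        (C := (((k ^ 2 : ℕ) : ℝ) + CC g) ^ 2) fun x => by
        rw [abs_of_nonneg (sq_nonneg _)]
        exact sq_le_sq' (by linarith [(abs_le.mp (abs_W_le z g (k ^ 2) x)).1])
          (abs_le.mp (abs_W_le z g (k ^ 2) x)).2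
    rcases Nat.eq_zero_or_pos k with rfl | hk
    · simp
    have hk' : (0 : ℝ) < k := by exact_mod_cast hk
    have hk1 : (1 : ℝ) ≤ k := by exact_mod_cast hk
    have e1 : ∀ x, (W z g (k ^ 2) x / (k : ℝ) ^ 2) ^ 2 = W z g (k ^ 2) x ^ 2 * (1 / (k : ℝ) ^ 4) := by
      intro x; field_simp
    simp_rw [e1]
    rw [← ofReal_integral_eq_lintegral_ofReal (i1.mul_const _)
      (Eventually.of_forall fun x => by positivity)]
    refine ENNReal.ofReal_le_ofReal ?_
    rw [integral_mul_const]
    have h1 := moment q hg hq hg1 hg2 (k ^ 2)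
    have h2 : ((((k ^ 2 : ℕ) : ℝ)) + 1) ≤ 2 * (k : ℝ) ^ 2 := by push_cast; nlinarith
    calc (∫ x, W z g (k ^ 2) x ^ 2 ∂(QQ q)) * (1 / (k : ℝ) ^ 4)
        ≤ ((2 * (k : ℝ) ^ 2) * CC g ^ 2) * (1 / (k : ℝ) ^ 4) := by
          refine mul_le_mul_of_nonneg_right (h1.trans ?_) (by positivity)
          exact mul_le_mul_of_nonneg_right h2 (sq_nonneg _)
      _ = 2 * CC g ^ 2 * (1 / (k : ℝ) ^ 2) := by field_simp
  have hsum : ∑' k : ℕ, ∫⁻ x, ENNReal.ofReal ((W z g (k ^ 2) x / (k : ℝ) ^ 2) ^ 2) ∂(QQ q) ≠ ⊤ := by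
    have hs : Summable fun k : ℕ => 2 * CC g ^ 2 * (1 / (k : ℝ) ^ 2) :=
      (Real.summable_one_div_nat_pow.mpr one_lt_two).mul_left _
    refine ne_top_of_le_ne_top ?_ (ENNReal.tsum_le_tsum hle)
    rw [← ENNReal.ofReal_tsum_of_nonneg (fun k => by positivity) hs]
    exact ENNReal.ofReal_ne_top
  rw [← lintegral_tsum fun k => (hmeas k).aemeasurable] at hsum
  have hae := ae_lt_top (Measurable.tsum hmeas) hsum
  filter_upwards [hae] with x hx
  have h1 := ENNReal.tendsto_atTop_zero_of_tsum_ne_top hx.ne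
  have h2 : Tendsto (fun k : ℕ => (W z g (k ^ 2) x / (k : ℝ) ^ 2) ^ 2) atTop (𝓝 0) := by
    have h3 := (ENNReal.tendsto_toReal ENNReal.zero_ne_top).comp h1
    simp only [ENNReal.toReal_zero] at h3
    refine h3.congr fun k => ?_
    simp only [Function.comp_apply]
    exact ENNReal.toReal_ofReal (sq_nonneg _)
  have h4 : Tendsto (fun k : ℕ => |W z g (k ^ 2) x / (k : ℝ) ^ 2|) atTop (𝓝 0) := by
    have h5 := h2.sqrt
    simpa [Real.sqrt_sq_eq_abs] using h5
  exact (tendsto_zero_iff_abs_tendsto_zero _).mpr h4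

/-- The signed count is sublinear. -/
lemma ae_T {z : X} {g : ℝ} (hg : g ≠ 0) (hq : q.real {z} = g) (hg1 : 0 ≤ g) (hg2 : g ≤ 1) :
    ∀ᵐ x ∂(QQ q), Tendsto (fun n : ℕ => |T z n x| / n) atTop (𝓝 0) := by
  filter_upwards [ae_squares q hg hq hg1 hg2] with x hx
  have hCC : 0 ≤ CC g := by unfold CC; positivity
  have hsq : Tendsto (fun n : ℕ => Nat.sqrt n) atTop atTop := by
    refine tendsto_atTop.mpr fun b => ?_
    filter_upwards [eventually_ge_atTop (b * b)] with n hn
    exact Nat.le_sqrt.mpr hn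
  have h1 : Tendsto (fun n : ℕ => |W z g ((Nat.sqrt n) ^ 2) x / ((Nat.sqrt n : ℕ) : ℝ) ^ 2|) atTop
      (𝓝 0) := by
    have := (hx.comp hsq).abs
    simpa using this
  have h2 : Tendsto (fun n : ℕ => (CC g + 2) / ((Nat.sqrt n : ℕ) : ℝ)) atTop (𝓝 0) :=
    (tendsto_const_div_atTop_nhds_zero_nat (CC g + 2)).comp hsq
  have h3 := h1.add h2
  rw [add_zero] at h3
  refine squeeze_zero' (Eventually.of_forall fun n => by positivity) ?_ h3
  filter_upwards [eventually_ge_atTop 1] with n hn
  have hk1 : 1 ≤ Nat.sqrt n := Nat.le_sqrt.mpr (by simpa using hn)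
  have hk2 : (Nat.sqrt n) ^ 2 ≤ n := Nat.sqrt_le' n
  have hk3 : n < (Nat.sqrt n + 1) ^ 2 := Nat.lt_succ_sqrt' n
  generalize Nat.sqrt n = k at hk1 hk2 hk3 ⊢
  have hkr : (1 : ℝ) ≤ k := by exact_mod_cast hk1
  obtain ⟨m, rfl⟩ := Nat.exists_eq_add_of_le hk2
  have hm : (m : ℝ) ≤ 2 * k := by
    have : m ≤ 2 * k := by nlinarith
    exact_mod_cast this
  have h4 := T_lip z (k ^ 2) m x
  have h5 := abs_W_sub_le z g (k ^ 2) x
  have h6 : |T z (k ^ 2 + m) x| ≤ |W z g (k ^ 2) x| + CC g + 2 * k := by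
    have e : T z (k ^ 2 + m) x = (T z (k ^ 2 + m) x - T z (k ^ 2) x) +
      (-(W z g (k ^ 2) x - T z (k ^ 2) x)) + W z g (k ^ 2) x := by ring
    rw [e]
    refine (abs_add_le _ _).trans ?_
    have := abs_add_le (T z (k ^ 2 + m) x - T z (k ^ 2) x) (-(W z g (k ^ 2) x - T z (k ^ 2) x))
    rw [abs_neg] at this
    linarith
  have h7 : ((k : ℝ)) ^ 2 ≤ ((k ^ 2 + m : ℕ) : ℝ) := by push_cast; have := Nat.cast_nonneg (α := ℝ) m; linarith
  rw [abs_div, abs_of_nonneg (by positivity : (0 : ℝ) ≤ (k : ℝ) ^ 2)]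
  calc |T z (k ^ 2 + m) x| / ((k ^ 2 + m : ℕ) : ℝ)
      ≤ |T z (k ^ 2 + m) x| / (k : ℝ) ^ 2 := by
        exact div_le_div_of_nonneg_left (abs_nonneg _) (by positivity) h7
    _ ≤ (|W z g (k ^ 2) x| + CC g + 2 * k) / (k : ℝ) ^ 2 := by
        exact div_le_div_of_nonneg_right h6 (by positivity)
    _ ≤ |W z g (k ^ 2) x| / (k : ℝ) ^ 2 + (CC g + 2) / k := by
        rw [div_add_div _ _ (by positivity) (by positivity), div_le_div_iff₀ (by positivity) (by positivity)]
        have : CC g ≤ CC g * k := by nlinarith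
        nlinarith [abs_nonneg (W z g (k ^ 2) x), pow_pos (lt_of_lt_of_le one_pos hkr) 2,
          mul_nonneg hCC (sub_nonneg.mpr hkr), pow_pos (lt_of_lt_of_le one_pos hkr) 3,
          mul_nonneg (mul_nonneg hCC (sub_nonneg.mpr hkr)) (pow_pos (lt_of_lt_of_le one_pos hkr) 2).le]

end Prob

end Pool.Agent.Y316.LX
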